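import Pool.Agent.helper96.S5.SpecR

/-! # MP_0b485e_lc, row CTH: tickets are computable -/

set_option autoImplicit false

namespace S5

open PF

noncomputable section

open Classical

theorem CTH_len : Computable fun x : ((ℕ × ℕ) × List ℕ) × ℕ => (tkc x.2).1.length := by
  have h : Computable fun n : ℕ => (tkc n).1.length :=
    Computable.comp (f := fun z : List ℕ × ℕ => z.1.length) (g := tkc)
      (Primrec.list_length.comp Primrec.fst).to_comp tkc_computable
  exact Computable.comp (f := fun n : ℕ => (tkc n).1.length) (g := fun x : ((ℕ × ℕ) × List ℕ) × ℕ => x.2)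
    h Computable.snd

theorem CTH_ent : ComputablePred fun y : (((ℕ × ℕ) × List ℕ) × ℕ) × ℕ => ent (tkc y.1.2).1 y.2 = 0 := by
  have h : ComputablePred fun z : List ℕ × ℕ => ent z.1 z.2 = 0 :=
    cp_eq (f := fun z : List ℕ × ℕ => ent z.1 z.2) (g := fun _ => 0) ent_computable (Computable.const 0)
  have h1 : Computable fun y : (((ℕ × ℕ) × List ℕ) × ℕ) × ℕ => (tkc y.1.2).1 := by
    have h2 : Computable fun n : ℕ => (tkc n).1 :=
      Computable.comp (f := fun z : List ℕ × ℕ => z.1) (g := tkc) Computable.fst tkc_computable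
    exact Computable.comp (f := fun n : ℕ => (tkc n).1) (g := fun y : (((ℕ × ℕ) × List ℕ) × ℕ) × ℕ => y.1.2)
      h2 (Computable.snd.comp Computable.fst)
  exact cp_comp (f := fun y : (((ℕ × ℕ) × List ℕ) × ℕ) × ℕ => ((tkc y.1.2).1, y.2))
    (p := fun z : List ℕ × ℕ => ent z.1 z.2 = 0) (h1.pair Computable.snd) h

theorem CTH_prd (B : BD) (hB : B.Cp) :
    ComputablePred fun y : (((ℕ × ℕ) × List ℕ) × ℕ) × ℕ => B.pr y.2 y.1.1.1.1 y.1.1.1.2 :=
  cp_comp (f := fun y : (((ℕ × ℕ) × List ℕ) × ℕ) × ℕ => (y.2, y.1.1.1.1, y.1.1.1.2))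
    (p := fun x : ℕ × ℕ × ℕ => B.pr x.1 x.2.1 x.2.2)
    (Computable.snd.pair (((Computable.fst.comp (Computable.fst.comp (Computable.fst.comp Computable.fst)))).pair
      (Computable.snd.comp (Computable.fst.comp (Computable.fst.comp Computable.fst))))) hB.pr

theorem CTH_dec (B : BD) (hB : B.Cp) :
    ComputablePred fun x : ((ℕ × ℕ) × List ℕ) × ℕ => B.tA x.1.1.1 x.1.1.2 x.1.2 x.2 := by
  have h3 : ComputablePred fun y : (((ℕ × ℕ) × List ℕ) × ℕ) × ℕ =>
      ent (tkc y.1.2).1 y.2 ≠ 0 → B.pr y.2 y.1.1.1.1 y.1.1.1.2 := by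
    refine (cp_or CTH_ent (CTH_prd B hB)).of_eq fun y => ?_
    constructor
    · rintro (h | h) hne
      · exact absurd h hne
      · exact h
    · intro h
      by_cases h0 : ent (tkc y.1.2).1 y.2 = 0
      · exact Or.inl h0
      · exact Or.inr (h h0)
  have hball : ComputablePred fun x : ((ℕ × ℕ) × List ℕ) × ℕ =>
      ∀ i < (tkc x.2).1.length, ent (tkc x.2).1 i ≠ 0 → B.pr i x.1.1.1 x.1.1.2 :=
    cp_ball (p := fun (x : ((ℕ × ℕ) × List ℕ) × ℕ) (i : ℕ) =>
      ent (tkc x.2).1 i ≠ 0 → B.pr i x.1.1.1 x.1.1.2) (g := fun x => (tkc x.2).1.length) h3 CTH_len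
  have hlam : ComputablePred fun x : ((ℕ × ℕ) × List ℕ) × ℕ => (tkc x.2).2 < B.lam := by
    have h2 : ComputablePred fun n : ℕ => (tkc n).2 < B.lam :=
      cp_lt (f := fun n : ℕ => (tkc n).2) (g := fun _ => B.lam)
        (Computable.comp (f := fun z : List ℕ × ℕ => z.2) (g := tkc) Computable.snd tkc_computable)
        (Computable.const B.lam)
    exact cp_comp (f := fun x : ((ℕ × ℕ) × List ℕ) × ℕ => x.2) (p := fun n : ℕ => (tkc n).2 < B.lam)
      Computable.snd h2
  exact cp_and hlam hball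

theorem CTH_row (hCHS : CHS_stmt) : CTH_stmt := by
  intro B hB hl
  have h0 : tkc (Encodable.encode (([], 0) : List ℕ × ℕ)) = ([], 0) := by
    rw [tkc, Encodable.encodek]
    rfl
  have hadm : ∀ (k t : ℕ) (H : List ℕ), B.tA k t H (Encodable.encode (([], 0) : List ℕ × ℕ)) := by
    intro k t H
    unfold BD.tA
    rw [h0]
    exact ⟨hl, fun i hi => absurd hi (Nat.not_lt_zero i)⟩
  obtain ⟨-, hs⟩ := hCHS (fun k => B.tA k) (fun _ => Encodable.encode (([], 0) : List ℕ × ℕ)) (CTH_dec B hB)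
    (Computable.const _) (fun k t H _ => ⟨_, le_rfl, hadm k t H⟩)
  exact tkc_computable.comp ((Primrec.pred.to_comp.comp hs).of_eq fun x => rfl)

end

end S5
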